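import Mathlib
import Pool.Agent.W203.SP.Stm
set_option autoImplicit false

namespace Pool.Agent.W135.SP.HYP1

open MeasureTheory Set Complex Filter
open scoped ENNReal NNReal
open Pool.Agent.W203.SP

lemma norm_ee (x : ℝ) : ‖ee x‖ = 1 := by
  unfold ee
  exact Complex.norm_exp_ofReal_mul_I _

lemma ee_add (x y : ℝ) : ee (x + y) = ee x * ee y := by
  unfold ee
  rw [← Complex.exp_add]
  congr 1
  push_cast
  ring

lemma conj_ee (x : ℝ) : (starRingEnd ℂ) (ee x) = ee (-x) := by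
  unfold ee
  rw [← Complex.exp_conj]
  congr 1
  rw [map_mul, Complex.conj_ofReal, Complex.conj_I]
  push_cast
  ring

lemma cont_ee : Continuous ee := by
  unfold ee
  fun_prop

lemma enorm_ee (x : ℝ) : ‖ee x‖ₑ = 1 := by
  rw [← ofReal_norm, norm_ee]; simp

noncomputable def K (g : ℝ → ℂ) (h r : ℝ) : ℂ := g (r + h) * (starRingEnd ℂ) (g r)
noncomputable def ph (h r : ℝ) : ℝ := 1 / (r + h) - 1 / r
noncomputable def A (g : ℝ → ℂ) (h l : ℝ) : ℂ := ∫ r, K g h r * ee (l * ph h r)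

lemma ph_meas (h : ℝ) : Measurable (ph h) := by
  unfold ph
  fun_prop

lemma K_meas {g : ℝ → ℂ} (hg : Measurable g) (h : ℝ) : Measurable (K g h) := by
  unfold K
  exact (hg.comp (by fun_prop)).mul (continuous_conj.measurable.comp hg)

lemma A_meas {g : ℝ → ℂ} (hg : Measurable g) : Measurable (fun q : ℝ × ℝ => A g q.2 q.1) := by
  unfold A
  have h1 : Measurable (fun p : (ℝ × ℝ) × ℝ => K g p.1.2 p.2 * ee (p.1.1 * ph p.1.2 p.2)) := by
    apply Measurable.mul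
    · unfold K
      exact (hg.comp (by fun_prop)).mul (continuous_conj.measurable.comp (hg.comp measurable_snd))
    · refine cont_ee.measurable.comp ?_
      unfold ph
      fun_prop
  exact (h1.stronglyMeasurable.integral_prod_right' (ν := volume)).measurable

lemma step1 (h2 : S_FOUR1) {a b B : ℝ} {g : ℝ → ℂ} (hg : Measurable g) (hB : ∀ r, ‖g r‖ ≤ B)
    (hs : ∀ r, r ∉ Icc a b → g r = 0) (l : ℝ) :
    ∫⁻ w, ‖∫ r, g r * ee (l / r + r * w)‖ₑ ^ 4 = ∫⁻ h, ‖A g h l‖ₑ ^ 2 := by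
  have H := h2 a b B (fun r => g r * ee (l / r))
    (hg.mul (cont_ee.measurable.comp (by fun_prop)))
    (fun r => by rw [norm_mul, norm_ee, mul_one]; exact hB r)
    (fun r hr => by rw [hs r hr, zero_mul])
  have e1 : ∀ w, (∫ r, g r * ee (l / r + r * w)) = ∫ r, g r * ee (l / r) * ee (r * w) := by
    intro w
    congr 1
    funext r
    rw [ee_add]; ring
  have e2 : ∀ h, A g h l = ∫ r, g (r + h) * ee (l / (r + h)) *
      (starRingEnd ℂ) (g r * ee (l / r)) := by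
    intro h
    unfold A K ph
    congr 1
    funext r
    rw [map_mul, conj_ee, show l * (1 / (r + h) - 1 / r) = l / (r + h) + -(l / r) by ring, ee_add]
    ring
  simp_rw [e1, e2]
  exact H

/-- Cauchy-Schwarz -/
lemma cs {S : Set ℝ} (hS : MeasurableSet S) (k : ℝ → ℂ) (hk : Measurable k)
    (hsup : ∀ r, r ∉ S → k r = 0) : (∫⁻ r, ‖k r‖ₑ) ^ 2 ≤ volume S * ∫⁻ r, ‖k r‖ₑ ^ 2 := by
  have h1 : ∀ r, ‖k r‖ₑ = S.indicator (fun _ => (1 : ℝ≥0∞)) r * ‖k r‖ₑ := by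
    intro r
    by_cases hr : r ∈ S
    · rw [indicator_of_mem hr, one_mul]
    · rw [hsup r hr, enorm_zero, mul_zero]
  have h2 := ENNReal.lintegral_mul_le_Lp_mul_Lq volume Real.HolderConjugate.two_two
    (f := S.indicator (fun _ => (1 : ℝ≥0∞))) (g := fun r => ‖k r‖ₑ)
    ((measurable_const.indicator hS).aemeasurable) hk.enorm.aemeasurable
  have h3 : ∫⁻ r, ‖k r‖ₑ ≤ (∫⁻ r, (S.indicator (fun _ => (1 : ℝ≥0∞)) r) ^ (2 : ℝ)) ^ (1 / (2 : ℝ)) *
      (∫⁻ r, ‖k r‖ₑ ^ (2 : ℝ)) ^ (1 / (2 : ℝ)) := by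
    calc ∫⁻ r, ‖k r‖ₑ = ∫⁻ r, S.indicator (fun _ => (1 : ℝ≥0∞)) r * ‖k r‖ₑ := lintegral_congr h1
      _ ≤ _ := h2
  have h4 : ∫⁻ r, (S.indicator (fun _ => (1 : ℝ≥0∞)) r) ^ (2 : ℝ) = volume S := by
    have : ∀ r, (S.indicator (fun _ => (1 : ℝ≥0∞)) r) ^ (2 : ℝ) =
        S.indicator (fun _ => (1 : ℝ≥0∞)) r := by
      intro r
      by_cases hr : r ∈ S
      · rw [indicator_of_mem hr, ENNReal.one_rpow]
      · rw [indicator_of_notMem hr, ENNReal.zero_rpow_of_pos (by norm_num)]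
    rw [lintegral_congr this, lintegral_indicator hS]
    simp
  rw [h4] at h3
  calc (∫⁻ r, ‖k r‖ₑ) ^ 2 ≤ ((volume S) ^ (1 / (2 : ℝ)) *
      (∫⁻ r, ‖k r‖ₑ ^ (2 : ℝ)) ^ (1 / (2 : ℝ))) ^ 2 := by gcongr
    _ = volume S * ∫⁻ r, ‖k r‖ₑ ^ 2 := by
        rw [mul_pow, ← ENNReal.rpow_natCast, ← ENNReal.rpow_natCast, ← ENNReal.rpow_mul,
          ← ENNReal.rpow_mul]
        norm_num

lemma bd2 {g : ℝ → ℂ} (hg : Measurable g) {a b : ℝ} (hs : ∀ r, r ∉ Icc a b → g r = 0)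
    (h Λ : ℝ) :
    ∫⁻ l in Icc (-Λ) Λ, ‖A g h l‖ₑ ^ 2 ≤
      ENNReal.ofReal (2 * Λ) * (ENNReal.ofReal (b - a) * ∫⁻ r, ‖K g h r‖ₑ ^ 2) := by
  have h1 : ∀ l, ‖A g h l‖ₑ ^ 2 ≤ ENNReal.ofReal (b - a) * ∫⁻ r, ‖K g h r‖ₑ ^ 2 := by
    intro l
    have e1 : ‖A g h l‖ₑ ≤ ∫⁻ r, ‖K g h r‖ₑ := by
      refine (enorm_integral_le_lintegral_enorm _).trans (le_of_eq ?_)
      refine lintegral_congr fun r => ?_
      rw [enorm_mul, enorm_ee, mul_one]
    calc ‖A g h l‖ₑ ^ 2 ≤ (∫⁻ r, ‖K g h r‖ₑ) ^ 2 := by gcongr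
      _ ≤ volume (Icc a b) * ∫⁻ r, ‖K g h r‖ₑ ^ 2 := by
          refine cs measurableSet_Icc _ (K_meas hg h) fun r hr => ?_
          unfold K
          rw [hs r hr, map_zero, mul_zero]
      _ = _ := by rw [Real.volume_Icc]
  calc ∫⁻ l in Icc (-Λ) Λ, ‖A g h l‖ₑ ^ 2
      ≤ ∫⁻ _ in Icc (-Λ) Λ, (ENNReal.ofReal (b - a) * ∫⁻ r, ‖K g h r‖ₑ ^ 2) :=
        lintegral_mono fun l => h1 l
    _ = _ := by
        rw [setLIntegral_const, Real.volume_Icc, mul_comm]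
        congr 2
        ring

/-- the phase is expanding -/
lemma ph_exp {a b h r r' : ℝ} (ha : 0 < a) (hr : r ∈ Icc a b) (hr' : r' ∈ Icc a b)
    (hrh : r + h ∈ Icc a b) (hrh' : r' + h ∈ Icc a b) :
    2 * a * |h| / b ^ 4 * |r - r'| ≤ |ph h r - ph h r'| := by
  obtain ⟨r1, r2⟩ := hr
  obtain ⟨r1', r2'⟩ := hr'
  obtain ⟨s1, s2⟩ := hrh
  obtain ⟨s1', s2'⟩ := hrh'
  have p1 : 0 < r := by linarith
  have p2 : 0 < r' := by linarith
  have p3 : 0 < r + h := by linarith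
  have p4 : 0 < r' + h := by linarith
  have hb : 0 < b := by linarith
  have e : ph h r - ph h r' = h * (r - r') * (r + r' + h) / (r * (r + h) * (r' * (r' + h))) := by
    unfold ph
    field_simp
    ring
  rw [e, abs_div, abs_mul, abs_mul]
  have q1 : |r * (r + h) * (r' * (r' + h))| = r * (r + h) * (r' * (r' + h)) :=
    abs_of_pos (by positivity)
  have q2 : |r + r' + h| = r + r' + h := abs_of_pos (by linarith)
  rw [q1, q2]
  have hD : r * (r + h) * (r' * (r' + h)) ≤ b ^ 4 := by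
    calc r * (r + h) * (r' * (r' + h)) ≤ b * b * (b * b) := by gcongr
      _ = b ^ 4 := by ring
  have hDp : 0 < r * (r + h) * (r' * (r' + h)) := by positivity
  calc 2 * a * |h| / b ^ 4 * |r - r'| = (|h| * |r - r'| * (2 * a)) / b ^ 4 := by ring
    _ ≤ (|h| * |r - r'| * (r + r' + h)) / (r * (r + h) * (r' * (r' + h))) := by
        apply div_le_div₀
        · have : 0 < r + r' + h := by linarith
          positivity
        · have : 2 * a ≤ r + r' + h := by linarith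
          gcongr
        · exact hDp
        · exact hD

lemma bd1 (h1 : S_OSC) {g : ℝ → ℂ} (hg : Measurable g) {a b B : ℝ} (ha : 0 < a) (hab : a ≤ b)
    (hB : ∀ r, ‖g r‖ ≤ B)
    (hs : ∀ r, r ∉ Icc a b → g r = 0) {h Λ : ℝ} (hΛ : 0 < Λ) (hh : h ≠ 0) :
    ∫⁻ l in Icc (-Λ) Λ, ‖A g h l‖ₑ ^ 2 ≤
      ENNReal.ofReal (Real.exp Real.pi / (2 * a * |h| / b ^ 4)) * ∫⁻ r, ‖K g h r‖ₑ ^ 2 := by
  have hb : 0 < b := lt_of_lt_of_le ha hab
  have hsup : ∀ r, r ∉ Icc (max a (a - h)) (min b (b - h)) → K g h r = 0 := by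
    intro r hr
    unfold K
    by_cases h1 : r ∈ Icc a b
    · by_cases h2 : r + h ∈ Icc a b
      · exfalso
        apply hr
        refine ⟨max_le h1.1 ?_, le_min h1.2 ?_⟩
        · linarith [h2.1]
        · linarith [h2.2]
      · rw [hs _ h2, zero_mul]
    · rw [hs _ h1, map_zero, mul_zero]
  by_cases hne : max a (a - h) ≤ min b (b - h)
  · refine h1 (max a (a - h)) (min b (b - h)) (2 * a * |h| / b ^ 4) Λ (B * B) (ph h) (K g h) hne
      ?_ hΛ (ph_meas h) ?_ (K_meas hg h) ?_ hsup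
    · have : 0 < |h| := abs_pos.mpr hh
      positivity
    · intro r hr r' hr'
      refine ph_exp ha ⟨(le_max_left _ _).trans hr.1, hr.2.trans (min_le_left _ _)⟩
        ⟨(le_max_left _ _).trans hr'.1, hr'.2.trans (min_le_left _ _)⟩ ?_ ?_
      · have h1 := (le_max_right _ _).trans hr.1
        have h2 := hr.2.trans (min_le_right _ _)
        exact ⟨by linarith, by linarith⟩
      · have h1 := (le_max_right _ _).trans hr'.1
        have h2 := hr'.2.trans (min_le_right _ _)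
        exact ⟨by linarith, by linarith⟩
    · intro r
      unfold K
      rw [norm_mul, RCLike.norm_conj]
      exact mul_le_mul (hB _) (hB _) (norm_nonneg _) ((norm_nonneg _).trans (hB 0))
  · have h0 : ∀ r, K g h r = 0 := fun r => hsup r (by
      rw [Icc_eq_empty hne]; exact notMem_empty r)
    have hA : ∀ l, A g h l = 0 := by
      intro l
      unfold A
      simp [h0]
    simp [hA]

lemma sqle (a b : ℝ≥0∞) : (a * b) ^ 2 ≤ a ^ 4 + b ^ 4 := by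
  rcases le_total a b with h | h
  · calc (a * b) ^ 2 ≤ (b * b) ^ 2 := pow_le_pow_left' (mul_le_mul' h le_rfl) 2
      _ = b ^ 4 := by ring
      _ ≤ _ := le_add_self
  · calc (a * b) ^ 2 ≤ (a * a) ^ 2 := pow_le_pow_left' (mul_le_mul' le_rfl h) 2
      _ = a ^ 4 := by ring
      _ ≤ _ := le_self_add

/-- |g(r+h)|^2 |g r|^2 -/
lemma intK {g : ℝ → ℂ} (hg : Measurable g) (h : ℝ) :
    ∫⁻ r, ‖K g h r‖ₑ ^ 2 ≤ 2 * ∫⁻ r, ‖g r‖ₑ ^ 4 := by
  have h1 : ∀ r, ‖K g h r‖ₑ ^ 2 ≤ ‖g (r + h)‖ₑ ^ 4 + ‖g r‖ₑ ^ 4 := by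
    intro r
    unfold K
    rw [enorm_mul, RCLike.enorm_conj]
    exact sqle _ _
  calc ∫⁻ r, ‖K g h r‖ₑ ^ 2 ≤ ∫⁻ r, (‖g (r + h)‖ₑ ^ 4 + ‖g r‖ₑ ^ 4) := lintegral_mono h1
    _ = (∫⁻ r, ‖g (r + h)‖ₑ ^ 4) + ∫⁻ r, ‖g r‖ₑ ^ 4 :=
        lintegral_add_right _ (hg.enorm.pow_const 4)
    _ = 2 * ∫⁻ r, ‖g r‖ₑ ^ 4 := by
        rw [lintegral_add_right_eq_self (fun r => ‖g r‖ₑ ^ 4) h]
        ring

/-- the kernel -/
lemma ker_pos {b δ : ℝ} (hb : 0 ≤ b) (hδ : 0 < δ) :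
    ∫⁻ h in Icc 0 b, ENNReal.ofReal (|h| ^ (δ - 1)) = ENNReal.ofReal (b ^ δ / δ) := by
  have h1 : ∫⁻ h in Icc 0 b, ENNReal.ofReal (|h| ^ (δ - 1)) =
      ∫⁻ h in Ioc 0 b, ENNReal.ofReal (h ^ (δ - 1)) := by
    rw [setLIntegral_congr (Ioc_ae_eq_Icc (α := ℝ) (μ := volume)).symm]
    refine setLIntegral_congr_fun measurableSet_Ioc fun x hx => ?_
    rw [abs_of_pos hx.1]
  have hi : IntervalIntegrable (fun x : ℝ => x ^ (δ - 1)) volume 0 b :=
    intervalIntegral.intervalIntegrable_rpow' (by linarith)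
  rw [h1, ← ofReal_integral_eq_lintegral_ofReal]
  · rw [← intervalIntegral.integral_of_le hb, integral_rpow (Or.inl (by linarith))]
    congr 1
    rw [show δ - 1 + 1 = δ by ring, Real.zero_rpow hδ.ne', sub_zero]
  · rw [intervalIntegrable_iff_integrableOn_Ioc_of_le hb] at hi
    exact hi
  · filter_upwards [ae_restrict_mem measurableSet_Ioc] with x hx
    exact Real.rpow_nonneg hx.1.le _

lemma ker {b δ : ℝ} (hb : 0 ≤ b) (hδ : 0 < δ) :
    ∫⁻ h in Icc (-b) b, ENNReal.ofReal (|h| ^ (δ - 1)) ≤ ENNReal.ofReal (2 * (b ^ δ / δ)) := by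
  have h1 : Icc (-b) b ⊆ Icc (-b) 0 ∪ Icc 0 b := by
    intro x hx
    rcases le_total x 0 with h | h
    · exact Or.inl ⟨hx.1, h⟩
    · exact Or.inr ⟨h, hx.2⟩
  have h2 : ∫⁻ h in Icc (-b) 0, ENNReal.ofReal (|h| ^ (δ - 1)) =
      ∫⁻ h in Icc 0 b, ENNReal.ofReal (|h| ^ (δ - 1)) := by
    have hm : MeasurePreserving (fun x : ℝ => -x) volume volume :=
      Measure.measurePreserving_neg volume
    have e := hm.setLIntegral_comp_preimage_emb (Homeomorph.neg ℝ).measurableEmbedding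
      (fun h : ℝ => ENNReal.ofReal (|h| ^ (δ - 1))) (Icc 0 b)
    rw [← e]
    have : (fun x : ℝ => -x) ⁻¹' Icc 0 b = Icc (-b) 0 := by
      ext x
      simp only [mem_preimage, mem_Icc]
      constructor <;> intro h <;> constructor <;> linarith [h.1, h.2]
    rw [this]
    simp only [abs_neg]
  calc _ ≤ ∫⁻ h in Icc (-b) 0 ∪ Icc 0 b, ENNReal.ofReal (|h| ^ (δ - 1)) := lintegral_mono_set h1
    _ ≤ (∫⁻ h in Icc (-b) 0, ENNReal.ofReal (|h| ^ (δ - 1))) +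
        ∫⁻ h in Icc 0 b, ENNReal.ofReal (|h| ^ (δ - 1)) := lintegral_union_le _ _ _
    _ = ENNReal.ofReal (2 * (b ^ δ / δ)) := by
        rw [h2, ker_pos hb hδ, ← ENNReal.ofReal_add (by positivity) (by positivity)]
        congr 1
        ring

/-- for one shift -/
lemma per (h1 : S_OSC) {g : ℝ → ℂ} (hg : Measurable g) {B e T : ℝ} (he : 0 < e) (he1 : e < 1)
    (hT : 1 ≤ T) (hB : ∀ r, ‖g r‖ ≤ B)
    (hs : ∀ r, r ∉ Icc (T ^ (1 - e)) (T ^ (1 + e)) → g r = 0) {h : ℝ} (hh : h ≠ 0) :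
    ∫⁻ l in Icc (-(4 * T ^ 2)) (4 * T ^ 2), ‖A g h l‖ₑ ^ 2 ≤
      (Icc (-(T ^ (1 + e))) (T ^ (1 + e))).indicator
        (fun h => ENNReal.ofReal (|h| ^ (e / 2 - 1))) h *
      (ENNReal.ofReal ((Real.exp Real.pi + 8) * T ^ (3 + 5 * e)) *
        (2 * ∫⁻ r, ‖g r‖ₑ ^ 4)) := by
  have hT0 : 0 < T := by linarith
  have ha : 0 < T ^ (1 - e) := Real.rpow_pos_of_pos hT0 _
  have hb : 0 < T ^ (1 + e) := Real.rpow_pos_of_pos hT0 _
  have hab : T ^ (1 - e) ≤ T ^ (1 + e) := Real.rpow_le_rpow_of_exponent_le hT (by linarith)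
  by_cases hmem : h ∈ Icc (-(T ^ (1 + e))) (T ^ (1 + e))
  swap
  · have h0 : ∀ r, K g h r = 0 := by
      intro r
      unfold K
      by_cases h1 : r ∈ Icc (T ^ (1 - e)) (T ^ (1 + e))
      · by_cases h2 : r + h ∈ Icc (T ^ (1 - e)) (T ^ (1 + e))
        · exfalso
          apply hmem
          constructor
          · linarith [h1.1, h1.2, h2.1, h2.2]
          · linarith [h1.1, h1.2, h2.1, h2.2]
        · rw [hs _ h2, zero_mul]
      · rw [hs _ h1, map_zero, mul_zero]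
    have hA : ∀ l, A g h l = 0 := by
      intro l
      unfold A
      simp [h0]
    simp [hA]
  rw [indicator_of_mem hmem]
  have hh0 : 0 < |h| := abs_pos.mpr hh
  set X := ∫⁻ r, ‖K g h r‖ₑ ^ 2 with hX
  have hXle : X ≤ 2 * ∫⁻ r, ‖g r‖ₑ ^ 4 := intK hg h
  have hLpos : (0 : ℝ) < 4 * T ^ 2 := by positivity
  have b1 := bd1 h1 hg ha hab hB hs hLpos hh
  have b2 := bd2 hg hs h (4 * T ^ 2)
  -- real bound
  have key : ∫⁻ l in Icc (-(4 * T ^ 2)) (4 * T ^ 2), ‖A g h l‖ₑ ^ 2 ≤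
      ENNReal.ofReal (|h| ^ (e / 2 - 1) * ((Real.exp Real.pi + 8) * T ^ (3 + 5 * e))) * X := by
    rcases le_total 1 |h| with hc | hc
    · refine b1.trans (mul_le_mul' (ENNReal.ofReal_le_ofReal ?_) le_rfl)
      have e1 : Real.exp Real.pi / (2 * T ^ (1 - e) * |h| / (T ^ (1 + e)) ^ 4) =
          (Real.exp Real.pi / 2) * |h| ^ (-1 : ℝ) * T ^ (3 + 5 * e) := by
        have e2 : T ^ (3 + 5 * e) = (T ^ (1 + e)) ^ 4 / T ^ (1 - e) := by
          rw [← Real.rpow_natCast, ← Real.rpow_mul hT0.le, ← Real.rpow_sub hT0]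
          congr 1
          push_cast
          ring
        rw [e2, Real.rpow_neg_one]
        field_simp
      rw [e1]
      have e3 : |h| ^ (-1 : ℝ) ≤ |h| ^ (e / 2 - 1) :=
        Real.rpow_le_rpow_of_exponent_le hc (by linarith)
      have e4 : 0 < Real.exp Real.pi := Real.exp_pos _
      have e5 : 0 < T ^ (3 + 5 * e) := Real.rpow_pos_of_pos hT0 _
      have e6 : 0 < |h| ^ (e / 2 - 1) := Real.rpow_pos_of_pos hh0 _
      calc Real.exp Real.pi / 2 * |h| ^ (-1 : ℝ) * T ^ (3 + 5 * e)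
          ≤ (Real.exp Real.pi + 8) * |h| ^ (e / 2 - 1) * T ^ (3 + 5 * e) := by
            gcongr
            linarith
        _ = _ := by ring
    · refine b2.trans ?_
      rw [← mul_assoc, ← ENNReal.ofReal_mul (by positivity)]
      refine mul_le_mul' (ENNReal.ofReal_le_ofReal ?_) le_rfl
      have e3 : 1 ≤ |h| ^ (e / 2 - 1) :=
        Real.one_le_rpow_of_pos_of_le_one_of_nonpos hh0 hc (by linarith)
      have e4 : 0 < Real.exp Real.pi := Real.exp_pos _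
      have e5 : 0 < T ^ (3 + 5 * e) := Real.rpow_pos_of_pos hT0 _
      have e7 : T ^ 2 * T ^ (1 + e) ≤ T ^ (3 + 5 * e) := by
        rw [← Real.rpow_natCast, ← Real.rpow_add hT0]
        apply Real.rpow_le_rpow_of_exponent_le hT
        push_cast
        linarith
      calc 2 * (4 * T ^ 2) * (T ^ (1 + e) - T ^ (1 - e)) ≤ 2 * (4 * T ^ 2) * T ^ (1 + e) := by
            gcongr; linarith
        _ = 8 * (T ^ 2 * T ^ (1 + e)) := by ring
        _ ≤ 8 * T ^ (3 + 5 * e) := by gcongr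
        _ ≤ (Real.exp Real.pi + 8) * T ^ (3 + 5 * e) := by gcongr; linarith
        _ ≤ |h| ^ (e / 2 - 1) * ((Real.exp Real.pi + 8) * T ^ (3 + 5 * e)) :=
            le_mul_of_one_le_left (by positivity) e3
  refine key.trans ?_
  rw [ENNReal.ofReal_mul (by positivity), mul_assoc]
  gcongr

theorem t_HYP1 (h1 : S_OSC) (h2 : S_FOUR1) : S_HYP1 := by
  intro e he he1
  refine ⟨(4 / e) * ((Real.exp Real.pi + 8) * 2), by positivity, ?_⟩
  intro T hT B g hg hB hs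
  have hT0 : 0 < T := by linarith
  have hb : 0 < T ^ (1 + e) := Real.rpow_pos_of_pos hT0 _
  have s1 : ∫⁻ l in Icc (-(4 * T ^ 2)) (4 * T ^ 2), ∫⁻ w, ‖∫ r, g r * ee (l / r + r * w)‖ₑ ^ 4 =
      ∫⁻ l in Icc (-(4 * T ^ 2)) (4 * T ^ 2), ∫⁻ h, ‖A g h l‖ₑ ^ 2 :=
    lintegral_congr fun l => step1 h2 hg hB hs l
  rw [s1, lintegral_lintegral_swap ((A_meas hg).enorm.pow_const 2).aemeasurable]
  have s2 : ∀ᵐ h : ℝ, h ≠ 0 := by
    rw [ae_iff]
    simp
  calc ∫⁻ h, ∫⁻ l in Icc (-(4 * T ^ 2)) (4 * T ^ 2), ‖A g h l‖ₑ ^ 2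
      ≤ ∫⁻ h, (Icc (-(T ^ (1 + e))) (T ^ (1 + e))).indicator
          (fun h => ENNReal.ofReal (|h| ^ (e / 2 - 1))) h *
        (ENNReal.ofReal ((Real.exp Real.pi + 8) * T ^ (3 + 5 * e)) *
          (2 * ∫⁻ r, ‖g r‖ₑ ^ 4)) := by
        apply lintegral_mono_ae
        filter_upwards [s2] with h hh
        exact per h1 hg he he1 hT hB hs hh
    _ = (∫⁻ h in Icc (-(T ^ (1 + e))) (T ^ (1 + e)), ENNReal.ofReal (|h| ^ (e / 2 - 1))) *
        (ENNReal.ofReal ((Real.exp Real.pi + 8) * T ^ (3 + 5 * e)) *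
          (2 * ∫⁻ r, ‖g r‖ₑ ^ 4)) := by
        rw [lintegral_mul_const _ (Measurable.indicator (by fun_prop) measurableSet_Icc),
          lintegral_indicator measurableSet_Icc]
    _ ≤ ENNReal.ofReal (2 * ((T ^ (1 + e)) ^ (e / 2) / (e / 2))) *
        (ENNReal.ofReal ((Real.exp Real.pi + 8) * T ^ (3 + 5 * e)) *
          (2 * ∫⁻ r, ‖g r‖ₑ ^ 4)) := by
        gcongr
        exact ker hb.le (by positivity)
    _ ≤ ENNReal.ofReal ((4 / e) * T ^ e) *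
        (ENNReal.ofReal ((Real.exp Real.pi + 8) * T ^ (3 + 5 * e)) *
          (2 * ∫⁻ r, ‖g r‖ₑ ^ 4)) := by
        refine mul_le_mul' (ENNReal.ofReal_le_ofReal ?_) le_rfl
        have : (T ^ (1 + e)) ^ (e / 2) ≤ T ^ e := by
          rw [← Real.rpow_mul hT0.le]
          apply Real.rpow_le_rpow_of_exponent_le hT
          nlinarith
        calc 2 * ((T ^ (1 + e)) ^ (e / 2) / (e / 2)) = (4 / e) * (T ^ (1 + e)) ^ (e / 2) := by
              field_simp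
              ring
          _ ≤ _ := by gcongr
    _ = ENNReal.ofReal ((4 / e) * ((Real.exp Real.pi + 8) * 2) * T ^ (3 + 6 * e)) *
          ∫⁻ r, ‖g r‖ₑ ^ 4 := by
        have e1 : T ^ (3 + 6 * e) = T ^ e * T ^ (3 + 5 * e) := by
          rw [← Real.rpow_add hT0]; congr 1; ring
        have e2 : (2 : ℝ≥0∞) = ENNReal.ofReal 2 := by simp
        rw [e2, ← mul_assoc, ← mul_assoc, ← ENNReal.ofReal_mul (by positivity),
          ← ENNReal.ofReal_mul (by positivity), e1]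
        congr 2
        ring

end Pool.Agent.W135.SP.HYP1
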